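import Pool.Agent.H31.SuitB

set_option autoImplicit false

open Pool.Agent.H31 Topology

theorem Pool.Agent.Results.MP_1d7995_gt.Neg.result :
    ∃ (G : Type) (_ : AddCommGroup G) (_ : TopologicalSpace G),
      IsTopologicalAddGroup G ∧ T35Space G ∧
      (∀ x : G, ∃ V : (ℕ → ℕ) → Set G, (𝓝 x).HasBasis (fun _ => True) V ∧
        ∀ α β : ℕ → ℕ, (∀ n, α n ≤ β n) → V β ⊆ V α) ∧
      ∀ S : Set G, DiscreteTopology S → IsClosed (S ∪ {0}) →
        ¬ Dense (AddSubgroup.closure S : Set G) :=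
  ⟨SuitB.G, inferInstance, inferInstance, inferInstance, inferInstance,
    fun x => (SuitB.base x).imp fun _ h => ⟨h.1, fun _ _ h' => h.2 h'⟩, fun _ => SuitB.no_suit⟩
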